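import Pool.Agent.Helper89.A8.Stmts

/-!
# Block A8-M02 (helper67): admissible pairings of the small modules

The relations `p x y = 0` come from explicit elements of order 7, 5, 4 (certificates found by
computer, checked by `decide`).
-/

set_option autoImplicit false

namespace Pool.Agent.A8

open Matrix

namespace GG67

theorem hom_ext {A S : Type*} [AddCommGroup A] [AddCommGroup S] {n : ℕ} (e : Fin n → A)
    (he : ∀ x : A, ∃ c : Fin n → ℕ, x = ∑ i, c i • e i) (F G : A →+ S)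
    (h : ∀ i, F (e i) = G (e i)) : F = G := by
  ext x
  obtain ⟨c, hc⟩ := he x
  rw [hc, map_sum, map_sum]
  exact Finset.sum_congr rfl fun i _ => by rw [map_nsmul, map_nsmul, h i]

theorem bi_ext {A B S : Type*} [AddCommGroup A] [AddCommGroup B] [AddCommGroup S] {n k : ℕ}
    (e : Fin n → A) (he : ∀ x : A, ∃ c : Fin n → ℕ, x = ∑ i, c i • e i)
    (e' : Fin k → B) (he' : ∀ x : B, ∃ c : Fin k → ℕ, x = ∑ i, c i • e' i)
    (F G : A →+ B →+ S) (h : ∀ i j, F (e i) (e' j) = G (e i) (e' j)) : F = G :=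
  hom_ext e he F G fun i => hom_ext e' he' _ _ (h i)

section comb
variable {S : Type} [AddCommGroup S] [Module RG S]

theorem val_add (a b : ZMod 2) (s : S) : (a + b).val • s = a.val • s + b.val • s := by
  have hs := add_self s
  have ha : a = 0 ∨ a = 1 := by revert a; decide
  have hb : b = 0 ∨ b = 1 := by revert b; decide
  have h11 : ((1 : ZMod 2) + 1) = 0 := by decide
  have hv1 : (1 : ZMod 2).val = 1 := rfl
  have hv0 : (0 : ZMod 2).val = 0 := rfl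
  rcases ha with rfl | rfl <;> rcases hb with rfl | rfl <;>
    simp only [h11, hv1, hv0, zero_add, add_zero, zero_smul, one_smul, hs]

/-- linear combination with coefficients in `F_2` -/
def comb {n : ℕ} (s : Fin n → S) : (Fin n → ZMod 2) →+ S :=
  AddMonoidHom.mk' (fun l => ∑ i, (l i).val • s i) (by
    intro l m
    rw [← Finset.sum_add_distrib]
    exact Finset.sum_congr rfl fun i _ => val_add _ _ _)

theorem comb_apply {n : ℕ} (s : Fin n → S) (l : Fin n → ZMod 2) :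
    comb s l = ∑ i, (l i).val • s i := rfl

theorem comb_single {n : ℕ} (s : Fin n → S) (k : Fin n) : comb s (Pi.single k 1) = s k := by
  rw [comb_apply, Finset.sum_eq_single k]
  · rw [Pi.single_eq_same, show (1 : ZMod 2).val = 1 from rfl, one_smul]
  · intro i _ hik
    rw [Pi.single_eq_of_ne hik, show (0 : ZMod 2).val = 0 from rfl, zero_smul]
  · intro h
    exact absurd (Finset.mem_univ k) h

theorem span_single {n : ℕ} (x : Fin n → ZMod 2) :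
    ∃ c : Fin n → ℕ, x = ∑ i, c i • (Pi.single i 1 : Fin n → ZMod 2) := by
  refine ⟨fun i => (x i).val, ?_⟩
  funext j
  rw [Finset.sum_apply, Finset.sum_eq_single j]
  · rw [Pi.smul_apply, Pi.single_eq_same, nsmul_eq_mul, mul_one, ZMod.natCast_val, ZMod.cast_id]
  · intro i _ hij
    rw [Pi.smul_apply, Pi.single_eq_of_ne (Ne.symm hij), smul_zero]
  · intro h
    exact absurd (Finset.mem_univ j) h
end comb

/-! ### certificates -/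

/-- the standard basis -/
def b4 : Fin 4 → V4 := ![![1, 0, 0, 0], ![0, 1, 0, 0], ![0, 0, 1, 0], ![0, 0, 0, 1]]
/-- the standard basis -/
def b6 : Fin 6 → V6 := ![![1, 0, 0, 0, 0, 0], ![0, 1, 0, 0, 0, 0], ![0, 0, 1, 0, 0, 0],
  ![0, 0, 0, 1, 0, 0], ![0, 0, 0, 0, 1, 0], ![0, 0, 0, 0, 0, 1]]

theorem b4_eq : ∀ i, b4 i = Pi.single i 1 := by decide
theorem b6_eq : ∀ i, b6 i = Pi.single i 1 := by decide

theorem span_b4 (x : V4) : ∃ c : Fin 4 → ℕ, x = ∑ i, c i • b4 i := by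
  simp only [b4_eq]
  exact span_single x

theorem span_b6 (x : V6) : ∃ c : Fin 6 → ℕ, x = ∑ i, c i • b6 i := by
  simp only [b6_eq]
  exact span_single x

/-- the basis of `V` -/
def eV : Fin 4 → MV := b4
/-- the basis of `V*` -/
def eD : Fin 4 → MD := b4
/-- the basis of `L` -/
def eL : Fin 6 → ML := b6

theorem span_eV (x : MV) : ∃ c : Fin 4 → ℕ, x = ∑ i, c i • eV i := span_b4 x
theorem span_eD (x : MD) : ∃ c : Fin 4 → ℕ, x = ∑ i, c i • eD i := span_b4 x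
theorem span_eL (x : ML) : ∃ c : Fin 6 → ℕ, x = ∑ i, c i • eL i := span_b6 x

/-- forget the type -/
def toV (x : MV) : V4 := x
/-- forget the type -/
def toD (x : MD) : V4 := x
/-- forget the type -/
def toL (x : ML) : V6 := x

section cert
variable {S : Type} [AddCommGroup S] [Module RG S]

theorem ordq (A B : M4) (h : A * B = 1) (h' : B * A = 1) {q : ℕ} (hq : q.Prime)
    (h7 : A ^ q = 1) (h1 : A ≠ 1) : orderOf (mkG A B h h') = q := by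
  have : Fact q.Prime := ⟨hq⟩
  apply orderOf_eq_prime
  · apply Units.ext
    rw [Units.val_pow_eq_pow_val, Units.val_one]
    exact h7
  · intro e
    exact h1 (congrArg Units.val e)

theorem ord4 (A B : M4) (h : A * B = 1) (h' : B * A = 1)
    (h4 : A ^ 4 = 1) (h1 : A ^ 2 ≠ 1) : orderOf (mkG A B h h') = 4 := by
  have := orderOf_eq_prime_pow (x := mkG A B h h') (p := 2) (n := 1) (by
    intro e
    apply h1
    have := congrArg Units.val e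
    rw [Units.val_pow_eq_pow_val] at this
    exact this) (by
    apply Units.ext
    rw [Units.val_pow_eq_pow_val, Units.val_one]
    exact h4)
  exact this

theorem cvv (p : MV →+ MV →+ S) (hp : Adm p) (A B : M4) (x : MV)
    (h : A * B = 1 ∧ B * A = 1 ∧ A ^ 7 = 1 ∧ A ≠ 1 ∧ A *ᵥ toV x = toV x) :
    p x x = 0 := by
  obtain ⟨h1, h2, h3, h4, h5⟩ := h
  have hx : act (mkG A B h1 h2) x = x := (act_MV _ _).trans h5
  exact hp.fix (mkG A B h1 h2) (Or.inr (ordq A B h1 h2 (by norm_num) h3 h4)) x x hx hx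

theorem cvd (p : MV →+ MD →+ S) (hp : Adm p) (A B : M4) (x : MV) (y : MD)
    (h : A * B = 1 ∧ B * A = 1 ∧ A ^ 7 = 1 ∧ A ≠ 1 ∧ A *ᵥ toV x = toV x ∧ Bᵀ *ᵥ toD y = toD y) :
    p x y = 0 := by
  obtain ⟨h1, h2, h3, h4, h5, h6⟩ := h
  have hx : act (mkG A B h1 h2) x = x := (act_MV _ _).trans h5
  have hy : act (mkG A B h1 h2) y = y := (act_MD _ _).trans h6
  exact hp.fix (mkG A B h1 h2) (Or.inr (ordq A B h1 h2 (by norm_num) h3 h4)) x y hx hy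

theorem cll (p : ML →+ ML →+ S) (hp : Adm p) (A B : M4) (x y : ML)
    (h : A * B = 1 ∧ B * A = 1 ∧ A ^ 5 = 1 ∧ A ≠ 1 ∧ actL A (toL x) = toL x ∧
      actL A (toL y) = toL y) :
    p x y = 0 ∧ p y x = 0 := by
  obtain ⟨h1, h2, h3, h4, h5, h6⟩ := h
  have hx : act (mkG A B h1 h2) x = x := (act_ML _ _).trans h5
  have hy : act (mkG A B h1 h2) y = y := (act_ML _ _).trans h6
  have ho := ordq A B h1 h2 (q := 5) (by norm_num) h3 h4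
  exact ⟨hp.fix _ (Or.inl ho) x y hx hy, hp.fix _ (Or.inl ho) y x hy hx⟩

theorem cvl (p : MV →+ ML →+ S) (hp : Adm p) (A B : M4) (x x' : MV) (y y' : ML)
    (h : A * B = 1 ∧ B * A = 1 ∧ A ^ 4 = 1 ∧ A ^ 2 ≠ 1 ∧
      toV x' + A *ᵥ toV x' + (A ^ 2) *ᵥ toV x' + (A ^ 3) *ᵥ toV x' = toV x ∧
      toL y' + actL A (toL y') + actL (A ^ 2) (toL y') + actL (A ^ 3) (toL y') = toL y) :
    p x y = 0 := by
  obtain ⟨h1, h2, h3, h4, h5, h6⟩ := h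
  have hx : nrm4 (mkG A B h1 h2) x' = x := by
    rw [nrm4, act_MV, act_MV, act_MV, Units.val_pow_eq_pow_val, Units.val_pow_eq_pow_val]
    exact h5
  have hy : nrm4 (mkG A B h1 h2) y' = y := by
    rw [nrm4, act_ML, act_ML, act_ML, Units.val_pow_eq_pow_val, Units.val_pow_eq_pow_val]
    exact h6
  rw [← hx, ← hy]
  exact hp.four _ (ord4 A B h1 h2 h3 h4) x' y'
end cert

/-- the passage from additive to linear factorisations -/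
theorem fac {a b c : Ty} {S : Type} [AddCommGroup S] [Module RG S] (m : Md a → Md b → Md c)
    (hm : Std3 a b c m) (p : Md a →+ Md b →+ S) (hp : Adm p) (f : Md c →+ S)
    (hf : ∀ x y, p x y = f (m x y)) {n : ℕ} (e : Fin n → Md c)
    (he : ∀ x : Md c, ∃ k : Fin n → ℕ, x = ∑ i, k i • e i) (hs : ∀ i, ∃ x y, e i = m x y) :
    ∃ F : Md c →ₗ[RG] S, ∀ x y, p x y = F (m x y) := by
  refine ⟨mkLin f ?_, fun x y => hf x y⟩
  intro g z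
  have key : f.comp (AddMonoidHom.mk' (fun z : Md c => act g z) (act_add g)) =
      (AddMonoidHom.mk' (fun s : S => act g s) (act_add g)).comp f := by
    apply hom_ext e he
    intro i
    obtain ⟨x, y, hxy⟩ := hs i
    change f (act g (e i)) = act g (f (e i))
    rw [hxy, ← hm.equiv, ← hf, ← hf, hp.equiv]
  exact DFunLike.congr_fun key z

section base
variable {S : Type} [AddCommGroup S] [Module RG S]

theorem rvv0 (p : MV →+ MV →+ S) (hp : Adm p) : p (eV 0) (eV 0) = 0 :=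
  cvv p hp !![1, 0, 0, 0; 0, 0, 0, 1; 0, 1, 0, 0; 0, 0, 1, 1]
    !![1, 0, 0, 0; 0, 0, 1, 0; 0, 1, 0, 1; 0, 1, 0, 0] _ (by decide)
theorem rvv1 (p : MV →+ MV →+ S) (hp : Adm p) : p (eV 1) (eV 1) = 0 :=
  cvv p hp !![0, 0, 0, 1; 0, 1, 0, 0; 1, 0, 0, 0; 0, 0, 1, 1]
    !![0, 0, 1, 0; 0, 1, 0, 0; 1, 0, 0, 1; 1, 0, 0, 0] _ (by decide)
theorem rvv2 (p : MV →+ MV →+ S) (hp : Adm p) : p (eV 2) (eV 2) = 0 :=
  cvv p hp !![0, 0, 0, 1; 1, 0, 0, 0; 0, 0, 1, 0; 0, 1, 0, 1]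
    !![0, 1, 0, 0; 1, 0, 0, 1; 0, 0, 1, 0; 1, 0, 0, 0] _ (by decide)
theorem rvv3 (p : MV →+ MV →+ S) (hp : Adm p) : p (eV 3) (eV 3) = 0 :=
  cvv p hp !![0, 0, 1, 0; 1, 0, 0, 0; 0, 1, 1, 0; 0, 0, 0, 1]
    !![0, 1, 0, 0; 1, 0, 1, 0; 1, 0, 0, 0; 0, 0, 0, 1] _ (by decide)
theorem rvv01 (p : MV →+ MV →+ S) (hp : Adm p) : p (eV 0 + eV 1) (eV 0 + eV 1) = 0 :=
  cvv p hp !![0, 1, 0, 0; 1, 0, 0, 1; 1, 1, 0, 0; 0, 0, 1, 0]
    !![1, 0, 1, 0; 1, 0, 0, 0; 0, 0, 0, 1; 1, 1, 1, 0] _ (by decide)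
theorem rvv02 (p : MV →+ MV →+ S) (hp : Adm p) : p (eV 0 + eV 2) (eV 0 + eV 2) = 0 :=
  cvv p hp !![0, 0, 1, 0; 0, 0, 0, 1; 1, 1, 0, 0; 1, 0, 1, 0]
    !![1, 0, 0, 1; 1, 0, 1, 1; 1, 0, 0, 0; 0, 1, 0, 0] _ (by decide)
theorem rvv03 (p : MV →+ MV →+ S) (hp : Adm p) : p (eV 0 + eV 3) (eV 0 + eV 3) = 0 :=
  cvv p hp !![0, 0, 0, 1; 0, 0, 1, 0; 1, 0, 0, 1; 1, 1, 0, 0]
    !![1, 0, 1, 0; 1, 0, 1, 1; 0, 1, 0, 0; 1, 0, 0, 0] _ (by decide)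
theorem rvv12 (p : MV →+ MV →+ S) (hp : Adm p) : p (eV 1 + eV 2) (eV 1 + eV 2) = 0 :=
  cvv p hp !![0, 0, 0, 1; 0, 0, 1, 0; 1, 1, 0, 0; 0, 1, 1, 0]
    !![0, 1, 1, 1; 0, 1, 0, 1; 0, 1, 0, 0; 1, 0, 0, 0] _ (by decide)
theorem rvv13 (p : MV →+ MV →+ S) (hp : Adm p) : p (eV 1 + eV 3) (eV 1 + eV 3) = 0 :=
  cvv p hp !![0, 0, 1, 0; 0, 0, 0, 1; 0, 1, 0, 1; 1, 1, 0, 0]
    !![0, 1, 1, 1; 0, 1, 1, 0; 1, 0, 0, 0; 0, 1, 0, 0] _ (by decide)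
theorem rvv23 (p : MV →+ MV →+ S) (hp : Adm p) : p (eV 2 + eV 3) (eV 2 + eV 3) = 0 :=
  cvv p hp !![0, 0, 1, 1; 1, 0, 0, 0; 0, 0, 0, 1; 0, 1, 1, 0]
    !![0, 1, 0, 0; 1, 0, 1, 1; 1, 0, 1, 0; 0, 0, 1, 0] _ (by decide)
theorem rvd0_0 (p : MV →+ MD →+ S) (hp : Adm p) : p (eV 0) (eD 0) = 0 :=
  cvd p hp !![1, 0, 0, 0; 0, 0, 0, 1; 0, 1, 0, 0; 0, 0, 1, 1]
    !![1, 0, 0, 0; 0, 0, 1, 0; 0, 1, 0, 1; 0, 1, 0, 0] _ _ (by decide)
theorem rvd0_01 (p : MV →+ MD →+ S) (hp : Adm p) : p (eV 0) (eD 0 + eD 1) = 0 :=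
  cvd p hp !![1, 0, 0, 1; 0, 1, 0, 1; 0, 1, 0, 0; 0, 0, 1, 0]
    !![1, 1, 1, 0; 0, 0, 1, 0; 0, 0, 0, 1; 0, 1, 1, 0] _ _ (by decide)
theorem rvd0_02 (p : MV →+ MD →+ S) (hp : Adm p) : p (eV 0) (eD 0 + eD 2) = 0 :=
  cvd p hp !![1, 0, 0, 1; 0, 0, 1, 0; 0, 0, 1, 1; 0, 1, 0, 0]
    !![1, 1, 1, 0; 0, 0, 0, 1; 0, 1, 0, 0; 0, 1, 1, 0] _ _ (by decide)
theorem rvd0_03 (p : MV →+ MD →+ S) (hp : Adm p) : p (eV 0) (eD 0 + eD 3) = 0 :=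
  cvd p hp !![1, 0, 1, 0; 0, 0, 0, 1; 0, 1, 0, 0; 0, 0, 1, 1]
    !![1, 1, 0, 1; 0, 0, 1, 0; 0, 1, 0, 1; 0, 1, 0, 0] _ _ (by decide)
theorem rvd1_1 (p : MV →+ MD →+ S) (hp : Adm p) : p (eV 1) (eD 1) = 0 :=
  cvd p hp !![0, 0, 0, 1; 0, 1, 0, 0; 1, 0, 0, 0; 0, 0, 1, 1]
    !![0, 0, 1, 0; 0, 1, 0, 0; 1, 0, 0, 1; 1, 0, 0, 0] _ _ (by decide)
theorem rvd1_01 (p : MV →+ MD →+ S) (hp : Adm p) : p (eV 1) (eD 0 + eD 1) = 0 :=
  cvd p hp !![1, 0, 0, 1; 0, 1, 0, 1; 1, 0, 0, 0; 0, 0, 1, 0]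
    !![0, 0, 1, 0; 1, 1, 1, 0; 0, 0, 0, 1; 1, 0, 1, 0] _ _ (by decide)
theorem rvd1_12 (p : MV →+ MD →+ S) (hp : Adm p) : p (eV 1) (eD 1 + eD 2) = 0 :=
  cvd p hp !![0, 0, 0, 1; 1, 1, 0, 0; 1, 0, 1, 0; 0, 0, 1, 0]
    !![0, 0, 1, 1; 0, 1, 1, 1; 0, 0, 0, 1; 1, 0, 0, 0] _ _ (by decide)
theorem rvd1_13 (p : MV →+ MD →+ S) (hp : Adm p) : p (eV 1) (eD 1 + eD 3) = 0 :=
  cvd p hp !![0, 0, 0, 1; 0, 1, 1, 0; 1, 0, 0, 0; 0, 0, 1, 1]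
    !![0, 0, 1, 0; 1, 1, 0, 1; 1, 0, 0, 1; 1, 0, 0, 0] _ _ (by decide)
theorem rvd2_2 (p : MV →+ MD →+ S) (hp : Adm p) : p (eV 2) (eD 2) = 0 :=
  cvd p hp !![0, 0, 0, 1; 1, 0, 0, 0; 0, 0, 1, 0; 0, 1, 0, 1]
    !![0, 1, 0, 0; 1, 0, 0, 1; 0, 0, 1, 0; 1, 0, 0, 0] _ _ (by decide)
theorem rvd2_02 (p : MV →+ MD →+ S) (hp : Adm p) : p (eV 2) (eD 0 + eD 2) = 0 :=
  cvd p hp !![1, 0, 0, 1; 1, 0, 0, 0; 0, 0, 1, 1; 0, 1, 0, 0]
    !![0, 1, 0, 0; 0, 0, 0, 1; 1, 1, 1, 0; 1, 1, 0, 0] _ _ (by decide)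
theorem rvd2_12 (p : MV →+ MD →+ S) (hp : Adm p) : p (eV 2) (eD 1 + eD 2) = 0 :=
  cvd p hp !![0, 0, 0, 1; 1, 1, 0, 0; 1, 0, 1, 0; 0, 1, 0, 0]
    !![0, 1, 0, 1; 0, 0, 0, 1; 0, 1, 1, 1; 1, 0, 0, 0] _ _ (by decide)
theorem rvd2_23 (p : MV →+ MD →+ S) (hp : Adm p) : p (eV 2) (eD 2 + eD 3) = 0 :=
  cvd p hp !![0, 0, 0, 1; 1, 0, 0, 0; 0, 1, 1, 0; 0, 1, 0, 1]
    !![0, 1, 0, 0; 1, 0, 0, 1; 1, 0, 1, 1; 1, 0, 0, 0] _ _ (by decide)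
theorem rvd3_3 (p : MV →+ MD →+ S) (hp : Adm p) : p (eV 3) (eD 3) = 0 :=
  cvd p hp !![0, 0, 1, 0; 1, 0, 0, 0; 0, 1, 1, 0; 0, 0, 0, 1]
    !![0, 1, 0, 0; 1, 0, 1, 0; 1, 0, 0, 0; 0, 0, 0, 1] _ _ (by decide)
theorem rvd3_03 (p : MV →+ MD →+ S) (hp : Adm p) : p (eV 3) (eD 0 + eD 3) = 0 :=
  cvd p hp !![1, 0, 1, 0; 1, 0, 0, 0; 0, 1, 0, 0; 0, 0, 1, 1]
    !![0, 1, 0, 0; 0, 0, 1, 0; 1, 1, 0, 0; 1, 1, 0, 1] _ _ (by decide)
theorem rvd3_13 (p : MV →+ MD →+ S) (hp : Adm p) : p (eV 3) (eD 1 + eD 3) = 0 :=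
  cvd p hp !![0, 0, 1, 0; 1, 1, 0, 0; 0, 1, 0, 0; 1, 0, 0, 1]
    !![0, 1, 1, 0; 0, 0, 1, 0; 1, 0, 0, 0; 0, 1, 1, 1] _ _ (by decide)
theorem rvd3_23 (p : MV →+ MD →+ S) (hp : Adm p) : p (eV 3) (eD 2 + eD 3) = 0 :=
  cvd p hp !![0, 0, 1, 0; 1, 0, 0, 0; 0, 1, 1, 0; 0, 1, 0, 1]
    !![0, 1, 0, 0; 1, 0, 1, 0; 1, 0, 0, 0; 1, 0, 1, 1] _ _ (by decide)
theorem rvl0_0 (p : MV →+ ML →+ S) (hp : Adm p) : p (eV 0) (eL 0) = 0 :=
  cvl p hp !![1, 1, 0, 0; 0, 1, 0, 1; 0, 0, 0, 1; 0, 0, 1, 0]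
    !![1, 1, 1, 0; 0, 1, 1, 0; 0, 0, 0, 1; 0, 0, 1, 0] _ ![0, 0, 0, 1] _ ![0, 0, 0, 0, 0, 1] (by decide)
theorem rvl0_1 (p : MV →+ ML →+ S) (hp : Adm p) : p (eV 0) (eL 1) = 0 :=
  cvl p hp !![1, 0, 1, 0; 0, 0, 0, 1; 0, 0, 1, 1; 0, 1, 0, 0]
    !![1, 1, 1, 0; 0, 0, 0, 1; 0, 1, 1, 0; 0, 1, 0, 0] _ ![0, 0, 0, 1] _ ![0, 0, 0, 0, 1, 0] (by decide)
theorem rvl0_2 (p : MV →+ ML →+ S) (hp : Adm p) : p (eV 0) (eL 2) = 0 :=
  cvl p hp !![1, 0, 0, 1; 0, 0, 1, 0; 0, 1, 0, 0; 0, 0, 1, 1]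
    !![1, 1, 0, 1; 0, 0, 1, 0; 0, 1, 0, 0; 0, 1, 0, 1] _ ![0, 0, 1, 0] _ ![0, 0, 0, 1, 0, 0] (by decide)
theorem rvl1_0 (p : MV →+ ML →+ S) (hp : Adm p) : p (eV 1) (eL 0) = 0 :=
  cvl p hp !![1, 0, 0, 1; 1, 1, 0, 0; 0, 0, 0, 1; 0, 0, 1, 0]
    !![1, 0, 1, 0; 1, 1, 1, 0; 0, 0, 0, 1; 0, 0, 1, 0] _ ![0, 0, 0, 1] _ ![0, 0, 0, 0, 0, 1] (by decide)
theorem rvl1_3 (p : MV →+ ML →+ S) (hp : Adm p) : p (eV 1) (eL 3) = 0 :=
  cvl p hp !![0, 0, 0, 1; 0, 1, 1, 0; 0, 0, 1, 1; 1, 0, 0, 0]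
    !![0, 0, 0, 1; 1, 1, 1, 0; 1, 0, 1, 0; 1, 0, 0, 0] _ ![0, 0, 0, 1] _ ![0, 0, 1, 0, 0, 0] (by decide)
theorem rvl1_4 (p : MV →+ ML →+ S) (hp : Adm p) : p (eV 1) (eL 4) = 0 :=
  cvl p hp !![0, 0, 1, 0; 0, 1, 0, 1; 1, 0, 0, 0; 0, 0, 1, 1]
    !![0, 0, 1, 0; 1, 1, 0, 1; 1, 0, 0, 0; 1, 0, 0, 1] _ ![0, 0, 1, 0] _ ![0, 1, 0, 0, 0, 0] (by decide)
theorem rvl2_1 (p : MV →+ ML →+ S) (hp : Adm p) : p (eV 2) (eL 1) = 0 :=
  cvl p hp !![1, 0, 0, 1; 0, 0, 0, 1; 1, 0, 1, 0; 0, 1, 0, 0]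
    !![1, 1, 0, 0; 0, 0, 0, 1; 1, 1, 1, 0; 0, 1, 0, 0] _ ![0, 0, 0, 1] _ ![0, 0, 0, 0, 1, 0] (by decide)
theorem rvl2_3 (p : MV →+ ML →+ S) (hp : Adm p) : p (eV 2) (eL 3) = 0 :=
  cvl p hp !![0, 0, 0, 1; 0, 1, 0, 1; 0, 1, 1, 0; 1, 0, 0, 0]
    !![0, 0, 0, 1; 1, 1, 0, 0; 1, 1, 1, 0; 1, 0, 0, 0] _ ![0, 0, 0, 1] _ ![0, 0, 1, 0, 0, 0] (by decide)
theorem rvl2_5 (p : MV →+ ML →+ S) (hp : Adm p) : p (eV 2) (eL 5) = 0 :=
  cvl p hp !![0, 1, 0, 0; 1, 0, 0, 0; 0, 0, 1, 1; 0, 1, 0, 1]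
    !![0, 1, 0, 0; 1, 0, 0, 0; 1, 0, 1, 1; 1, 0, 0, 1] _ ![0, 1, 0, 0] _ ![1, 0, 0, 0, 0, 0] (by decide)
theorem rvl3_2 (p : MV →+ ML →+ S) (hp : Adm p) : p (eV 3) (eL 2) = 0 :=
  cvl p hp !![1, 0, 1, 0; 0, 0, 1, 0; 0, 1, 0, 0; 1, 0, 0, 1]
    !![1, 1, 0, 0; 0, 0, 1, 0; 0, 1, 0, 0; 1, 1, 0, 1] _ ![0, 0, 1, 0] _ ![0, 0, 0, 1, 0, 0] (by decide)
theorem rvl3_4 (p : MV →+ ML →+ S) (hp : Adm p) : p (eV 3) (eL 4) = 0 :=
  cvl p hp !![0, 0, 1, 0; 0, 1, 1, 0; 1, 0, 0, 0; 0, 1, 0, 1]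
    !![0, 0, 1, 0; 1, 1, 0, 0; 1, 0, 0, 0; 1, 1, 0, 1] _ ![0, 0, 1, 0] _ ![0, 1, 0, 0, 0, 0] (by decide)
theorem rvl3_5 (p : MV →+ ML →+ S) (hp : Adm p) : p (eV 3) (eL 5) = 0 :=
  cvl p hp !![0, 1, 0, 0; 1, 0, 0, 0; 0, 1, 1, 0; 0, 0, 1, 1]
    !![0, 1, 0, 0; 1, 0, 0, 0; 1, 0, 1, 0; 1, 0, 1, 1] _ ![0, 1, 0, 0] _ ![1, 0, 0, 0, 0, 0] (by decide)
theorem rvl01_2 (p : MV →+ ML →+ S) (hp : Adm p) :
    p (eV 0 + eV 1) (eL 1 + eL 3) = 0 :=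
  cvl p hp !![0, 1, 1, 0; 0, 1, 1, 1; 0, 0, 1, 1; 1, 1, 0, 0]
    !![0, 1, 1, 1; 0, 1, 1, 0; 1, 1, 1, 0; 1, 1, 0, 0] _ ![0, 0, 0, 1] _ ![0, 0, 0, 0, 1, 0] (by decide)
theorem rvl01_3 (p : MV →+ ML →+ S) (hp : Adm p) :
    p (eV 0 + eV 1) (eL 2 + eL 4) = 0 :=
  cvl p hp !![0, 1, 0, 1; 0, 1, 1, 1; 1, 1, 0, 0; 0, 0, 1, 1]
    !![0, 1, 1, 1; 0, 1, 0, 1; 1, 1, 0, 0; 1, 1, 0, 1] _ ![0, 0, 1, 0] _ ![0, 0, 0, 1, 0, 0] (by decide)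
theorem rvl02_1 (p : MV →+ ML →+ S) (hp : Adm p) :
    p (eV 0 + eV 2) (eL 0 + eL 3) = 0 :=
  cvl p hp !![0, 1, 1, 0; 0, 1, 0, 1; 0, 1, 1, 1; 1, 0, 1, 0]
    !![0, 1, 1, 1; 1, 1, 1, 0; 0, 1, 1, 0; 1, 0, 1, 0] _ ![0, 0, 0, 1] _ ![0, 0, 0, 0, 0, 1] (by decide)
theorem rvl02_3 (p : MV →+ ML →+ S) (hp : Adm p) :
    p (eV 0 + eV 2) (eL 2 + eL 5) = 0 :=
  cvl p hp !![0, 0, 1, 1; 0, 1, 0, 0; 1, 1, 0, 1; 1, 0, 1, 1]
    !![1, 0, 0, 1; 0, 1, 0, 0; 0, 1, 1, 1; 1, 1, 1, 1] _ ![0, 1, 0, 0] _ ![0, 0, 0, 1, 0, 0] (by decide)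
theorem rvl03_1 (p : MV →+ ML →+ S) (hp : Adm p) :
    p (eV 0 + eV 3) (eL 0 + eL 4) = 0 :=
  cvl p hp !![0, 1, 0, 1; 0, 1, 1, 0; 1, 0, 0, 1; 0, 1, 1, 1]
    !![0, 1, 1, 1; 1, 1, 0, 1; 1, 0, 0, 1; 0, 1, 0, 1] _ ![0, 0, 0, 1] _ ![0, 0, 0, 0, 0, 1] (by decide)
theorem rvl03_2 (p : MV →+ ML →+ S) (hp : Adm p) :
    p (eV 0 + eV 3) (eL 1 + eL 5) = 0 :=
  cvl p hp !![0, 0, 1, 1; 0, 1, 0, 0; 1, 0, 1, 1; 1, 1, 1, 0]
    !![1, 0, 1, 0; 0, 1, 0, 0; 1, 1, 1, 1; 0, 1, 1, 1] _ ![0, 1, 0, 0] _ ![0, 0, 0, 0, 1, 0] (by decide)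
theorem rvl12_3 (p : MV →+ ML →+ S) (hp : Adm p) :
    p (eV 1 + eV 2) (eL 4 + eL 5) = 0 :=
  cvl p hp !![0, 1, 1, 0; 0, 0, 1, 1; 1, 0, 1, 1; 1, 0, 0, 1]
    !![0, 1, 1, 0; 1, 0, 1, 1; 0, 0, 1, 1; 0, 1, 1, 1] _ ![0, 0, 1, 0] _ ![0, 1, 0, 0, 0, 0] (by decide)
theorem rvl13_2 (p : MV →+ ML →+ S) (hp : Adm p) :
    p (eV 1 + eV 3) (eL 3 + eL 5) = 0 :=
  cvl p hp !![0, 1, 0, 1; 0, 0, 1, 1; 1, 0, 1, 0; 1, 0, 1, 1]
    !![0, 1, 0, 1; 1, 0, 1, 1; 0, 1, 1, 1; 0, 0, 1, 1] _ ![0, 0, 0, 1] _ ![0, 0, 1, 0, 0, 0] (by decide)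
/-- a basis of `L` consisting of nonsingular vectors -/
def nL : Fin 6 → ML := (![![0, 0, 1, 1, 0, 0], ![0, 1, 0, 1, 1, 0], ![0, 1, 1, 0, 1, 1], ![1, 0, 0, 1, 1, 1], ![1, 0, 1, 0, 0, 1], ![1, 1, 0, 1, 0, 1]] : Fin 6 → V6)
theorem rll0_0 (p : ML →+ ML →+ S) (hp : Adm p) :
    p (nL 0) (nL 0) = 0 ∧ p (nL 0) (nL 0) = 0 :=
  cll p hp !![0, 0, 0, 1; 0, 0, 1, 0; 0, 1, 0, 1; 1, 0, 1, 1]
    !![1, 1, 0, 1; 1, 0, 1, 0; 0, 1, 0, 0; 1, 0, 0, 0] _ _ (by decide)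
theorem rll0_1 (p : ML →+ ML →+ S) (hp : Adm p) :
    p (nL 0) (nL 1) = 0 ∧ p (nL 1) (nL 0) = 0 :=
  cll p hp !![0, 0, 0, 1; 0, 0, 1, 0; 0, 1, 0, 1; 1, 0, 1, 1]
    !![1, 1, 0, 1; 1, 0, 1, 0; 0, 1, 0, 0; 1, 0, 0, 0] _ _ (by decide)
theorem rll0_2 (p : ML →+ ML →+ S) (hp : Adm p) :
    p (nL 0) (nL 2) = 0 ∧ p (nL 2) (nL 0) = 0 :=
  cll p hp !![0, 0, 1, 0; 1, 0, 1, 1; 0, 0, 0, 1; 0, 1, 0, 1]
    !![1, 1, 1, 0; 0, 0, 1, 1; 1, 0, 0, 0; 0, 0, 1, 0] _ _ (by decide)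
theorem rll0_3 (p : ML →+ ML →+ S) (hp : Adm p) :
    p (nL 0) (nL 3) = 0 ∧ p (nL 3) (nL 0) = 0 :=
  cll p hp !![0, 1, 0, 0; 0, 0, 0, 1; 1, 1, 0, 1; 0, 0, 1, 1]
    !![1, 1, 1, 0; 1, 0, 0, 0; 0, 1, 0, 1; 0, 1, 0, 0] _ _ (by decide)
theorem rll0_4 (p : ML →+ ML →+ S) (hp : Adm p) :
    p (nL 0) (nL 4) = 0 ∧ p (nL 4) (nL 0) = 0 :=
  cll p hp !![0, 0, 0, 1; 0, 0, 1, 1; 0, 1, 0, 0; 1, 1, 0, 1]
    !![1, 0, 1, 1; 0, 0, 1, 0; 1, 1, 0, 0; 1, 0, 0, 0] _ _ (by decide)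
theorem rll0_5 (p : ML →+ ML →+ S) (hp : Adm p) :
    p (nL 0) (nL 5) = 0 ∧ p (nL 5) (nL 0) = 0 :=
  cll p hp !![0, 0, 1, 0; 1, 0, 0, 0; 0, 0, 1, 1; 1, 1, 1, 0]
    !![0, 1, 0, 0; 1, 1, 0, 1; 1, 0, 0, 0; 1, 0, 1, 0] _ _ (by decide)
theorem rll1_1 (p : ML →+ ML →+ S) (hp : Adm p) :
    p (nL 1) (nL 1) = 0 ∧ p (nL 1) (nL 1) = 0 :=
  cll p hp !![0, 0, 0, 1; 1, 0, 0, 0; 0, 1, 1, 0; 1, 0, 1, 0]
    !![0, 1, 0, 0; 0, 1, 1, 1; 0, 1, 0, 1; 1, 0, 0, 0] _ _ (by decide)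
theorem rll1_2 (p : ML →+ ML →+ S) (hp : Adm p) :
    p (nL 1) (nL 2) = 0 ∧ p (nL 2) (nL 1) = 0 :=
  cll p hp !![0, 0, 0, 1; 1, 0, 1, 0; 0, 1, 0, 0; 0, 0, 1, 1]
    !![1, 1, 0, 1; 0, 0, 1, 0; 1, 0, 0, 1; 1, 0, 0, 0] _ _ (by decide)
theorem rll1_3 (p : ML →+ ML →+ S) (hp : Adm p) :
    p (nL 1) (nL 3) = 0 ∧ p (nL 3) (nL 1) = 0 :=
  cll p hp !![0, 0, 1, 1; 0, 1, 1, 0; 1, 0, 0, 0; 0, 1, 0, 0]
    !![0, 0, 1, 0; 0, 0, 0, 1; 0, 1, 0, 1; 1, 1, 0, 1] _ _ (by decide)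
theorem rll1_4 (p : ML →+ ML →+ S) (hp : Adm p) :
    p (nL 1) (nL 4) = 0 ∧ p (nL 4) (nL 1) = 0 :=
  cll p hp !![0, 0, 0, 1; 1, 0, 0, 0; 1, 1, 1, 1; 0, 0, 1, 0]
    !![0, 1, 0, 0; 1, 1, 1, 1; 0, 0, 0, 1; 1, 0, 0, 0] _ _ (by decide)
theorem rll1_5 (p : ML →+ ML →+ S) (hp : Adm p) :
    p (nL 1) (nL 5) = 0 ∧ p (nL 5) (nL 1) = 0 :=
  cll p hp !![0, 0, 1, 0; 0, 0, 0, 1; 0, 1, 1, 0; 1, 1, 0, 0]
    !![1, 0, 1, 1; 1, 0, 1, 0; 1, 0, 0, 0; 0, 1, 0, 0] _ _ (by decide)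
theorem rll2_2 (p : ML →+ ML →+ S) (hp : Adm p) :
    p (nL 2) (nL 2) = 0 ∧ p (nL 2) (nL 2) = 0 :=
  cll p hp !![0, 0, 0, 1; 1, 0, 1, 0; 0, 1, 0, 0; 0, 0, 1, 1]
    !![1, 1, 0, 1; 0, 0, 1, 0; 1, 0, 0, 1; 1, 0, 0, 0] _ _ (by decide)
theorem rll2_3 (p : ML →+ ML →+ S) (hp : Adm p) :
    p (nL 2) (nL 3) = 0 ∧ p (nL 3) (nL 2) = 0 :=
  cll p hp !![0, 0, 1, 0; 0, 1, 1, 0; 0, 1, 0, 1; 1, 0, 0, 0]
    !![0, 0, 0, 1; 1, 1, 0, 0; 1, 0, 0, 0; 1, 1, 1, 0] _ _ (by decide)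
theorem rll2_4 (p : ML →+ ML →+ S) (hp : Adm p) :
    p (nL 2) (nL 4) = 0 ∧ p (nL 4) (nL 2) = 0 :=
  cll p hp !![0, 0, 0, 1; 1, 1, 0, 0; 0, 1, 0, 1; 0, 0, 1, 0]
    !![1, 1, 1, 0; 1, 0, 1, 0; 0, 0, 0, 1; 1, 0, 0, 0] _ _ (by decide)
theorem rll2_5 (p : ML →+ ML →+ S) (hp : Adm p) :
    p (nL 2) (nL 5) = 0 ∧ p (nL 5) (nL 2) = 0 :=
  cll p hp !![0, 0, 1, 1; 1, 0, 0, 0; 0, 1, 0, 0; 1, 0, 0, 1]
    !![0, 1, 0, 0; 0, 0, 1, 0; 1, 1, 0, 1; 0, 1, 0, 1] _ _ (by decide)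
theorem rll3_3 (p : ML →+ ML →+ S) (hp : Adm p) :
    p (nL 3) (nL 3) = 0 ∧ p (nL 3) (nL 3) = 0 :=
  cll p hp !![0, 0, 0, 1; 0, 1, 0, 1; 1, 0, 0, 0; 0, 1, 1, 0]
    !![0, 0, 1, 0; 1, 1, 0, 0; 1, 1, 0, 1; 1, 0, 0, 0] _ _ (by decide)
theorem rll3_4 (p : ML →+ ML →+ S) (hp : Adm p) :
    p (nL 3) (nL 4) = 0 ∧ p (nL 4) (nL 3) = 0 :=
  cll p hp !![0, 0, 1, 1; 0, 1, 0, 1; 0, 1, 0, 0; 1, 0, 0, 0]
    !![0, 0, 0, 1; 0, 0, 1, 0; 1, 1, 1, 0; 0, 1, 1, 0] _ _ (by decide)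
theorem rll3_5 (p : ML →+ ML →+ S) (hp : Adm p) :
    p (nL 3) (nL 5) = 0 ∧ p (nL 5) (nL 3) = 0 :=
  cll p hp !![0, 1, 0, 0; 0, 0, 1, 0; 0, 0, 1, 1; 1, 1, 1, 0]
    !![1, 1, 0, 1; 1, 0, 0, 0; 0, 1, 0, 0; 0, 1, 1, 0] _ _ (by decide)
theorem rll4_4 (p : ML →+ ML →+ S) (hp : Adm p) :
    p (nL 4) (nL 4) = 0 ∧ p (nL 4) (nL 4) = 0 :=
  cll p hp !![0, 0, 0, 1; 0, 0, 1, 0; 1, 0, 1, 0; 1, 1, 0, 0]
    !![0, 1, 1, 0; 0, 1, 1, 1; 0, 1, 0, 0; 1, 0, 0, 0] _ _ (by decide)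
theorem rll4_5 (p : ML →+ ML →+ S) (hp : Adm p) :
    p (nL 4) (nL 5) = 0 ∧ p (nL 5) (nL 4) = 0 :=
  cll p hp !![0, 0, 0, 1; 0, 0, 1, 0; 1, 0, 1, 0; 1, 1, 0, 0]
    !![0, 1, 1, 0; 0, 1, 1, 1; 0, 1, 0, 0; 1, 0, 0, 0] _ _ (by decide)
theorem rll5_5 (p : ML →+ ML →+ S) (hp : Adm p) :
    p (nL 5) (nL 5) = 0 ∧ p (nL 5) (nL 5) = 0 :=
  cll p hp !![0, 0, 0, 1; 0, 0, 1, 0; 1, 0, 1, 0; 1, 1, 0, 0]
    !![0, 1, 1, 0; 0, 1, 1, 1; 0, 1, 0, 0; 1, 0, 0, 0] _ _ (by decide)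

/-- the inverse of the matrix of the basis `nL` -/
def nI : Matrix (Fin 6) (Fin 6) (ZMod 2) := !![0, 1, 1, 0, 1, 1; 0, 0, 1, 1, 0, 1; 1, 0, 0, 0, 0, 1; 1, 0, 1, 1, 1, 0; 1, 1, 0, 0, 1, 0; 1, 1, 1, 1, 0, 0]

set_option maxRecDepth 20000 in
theorem span_nL' : ∀ x : V6, x = ∑ i, ((nI *ᵥ x) i).val • toL (nL i) := by decide +kernel

theorem span_nL (x : ML) : ∃ c : Fin 6 → ℕ, x = ∑ i, c i • nL i := ⟨_, span_nL' x⟩

theorem sym_of {A : Type*} [AddCommGroup A] (p : A →+ A →+ S) (x y : A) (hx : p x x = 0)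
    (hy : p y y = 0) (hxy : p (x + y) (x + y) = 0) : p y x = p x y := by
  rw [map_add, map_add, AddMonoidHom.add_apply, AddMonoidHom.add_apply, hx, hy, zero_add,
    add_zero] at hxy
  rw [← neg_eq (p x y)]
  exact eq_neg_of_add_eq_zero_left hxy

theorem tri_of (p : MV →+ ML →+ S) (x y : MV) (l m : ML) (h1 : p x l = 0) (h2 : p y m = 0)
    (h : p (x + y) (l + m) = 0) : p x m = p y l := by
  rw [map_add, map_add, AddMonoidHom.add_apply, AddMonoidHom.add_apply, h1, h2, zero_add,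
    add_zero] at h
  rw [← neg_eq (p y l)]
  exact eq_neg_of_add_eq_zero_right h

/-- the biadditive map of a standard pairing followed by an additive map -/
def bi {a b c : Ty} {m : Md a → Md b → Md c} (hm : Std3 a b c m) (f : Md c →+ S) :
    Md a →+ Md b →+ S :=
  AddMonoidHom.mk' (fun x => AddMonoidHom.mk' (fun y => f (m x y)) (by
    intro y y'
    rw [hm.add_right, map_add])) (by
    intro x x'
    ext y
    change f (m (x + x') y) = f (m x y) + f (m x' y)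
    rw [hm.add_left, map_add])

theorem bi_apply {a b c : Ty} {m : Md a → Md b → Md c} (hm : Std3 a b c m) (f : Md c →+ S)
    (x : Md a) (y : Md b) : bi hm f x y = f (m x y) := rfl

theorem vv_main (p : MV →+ MV →+ S) (hp : Adm p) :
    ∃ F : ML →ₗ[RG] S, ∀ x y, p x y = F (mvv x y) := by
  let s : Fin 6 → S := ![p (eV 0) (eV 1), p (eV 0) (eV 2), p (eV 0) (eV 3), p (eV 1) (eV 2),
    p (eV 1) (eV 3), p (eV 2) (eV 3)]
  let f : ML →+ S := comb s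
  have hfb : ∀ k, f (eL k) = s k := by
    intro k
    change comb s (b6 k) = s k
    rw [b6_eq, comb_single]
  have key : p = bi (S := S) Std3.vv f := by
    apply bi_ext eV span_eV eV span_eV
    intro i j
    rw [bi_apply]
    match i, j with
    | 0, 0 => rw [rvv0 p hp, show mvv (eV 0) (eV 0) = 0 from wdg_self _, map_zero]
    | 0, 1 => rw [show mvv (eV 0) (eV 1) = eL 0 from
        (by decide : toL (mvv (eV 0) (eV 1)) = toL (eL 0)), hfb]; rfl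
    | 0, 2 => rw [show mvv (eV 0) (eV 2) = eL 1 from
        (by decide : toL (mvv (eV 0) (eV 2)) = toL (eL 1)), hfb]; rfl
    | 0, 3 => rw [show mvv (eV 0) (eV 3) = eL 2 from
        (by decide : toL (mvv (eV 0) (eV 3)) = toL (eL 2)), hfb]; rfl
    | 1, 0 => rw [show mvv (eV 1) (eV 0) = eL 0 from
        (by decide : toL (mvv (eV 1) (eV 0)) = toL (eL 0)), hfb,
        sym_of p (eV 0) (eV 1) (rvv0 p hp) (rvv1 p hp) (rvv01 p hp)]; rfl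
    | 1, 1 => rw [rvv1 p hp, show mvv (eV 1) (eV 1) = 0 from wdg_self _, map_zero]
    | 1, 2 => rw [show mvv (eV 1) (eV 2) = eL 3 from
        (by decide : toL (mvv (eV 1) (eV 2)) = toL (eL 3)), hfb]; rfl
    | 1, 3 => rw [show mvv (eV 1) (eV 3) = eL 4 from
        (by decide : toL (mvv (eV 1) (eV 3)) = toL (eL 4)), hfb]; rfl
    | 2, 0 => rw [show mvv (eV 2) (eV 0) = eL 1 from
        (by decide : toL (mvv (eV 2) (eV 0)) = toL (eL 1)), hfb,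
        sym_of p (eV 0) (eV 2) (rvv0 p hp) (rvv2 p hp) (rvv02 p hp)]; rfl
    | 2, 1 => rw [show mvv (eV 2) (eV 1) = eL 3 from
        (by decide : toL (mvv (eV 2) (eV 1)) = toL (eL 3)), hfb,
        sym_of p (eV 1) (eV 2) (rvv1 p hp) (rvv2 p hp) (rvv12 p hp)]; rfl
    | 2, 2 => rw [rvv2 p hp, show mvv (eV 2) (eV 2) = 0 from wdg_self _, map_zero]
    | 2, 3 => rw [show mvv (eV 2) (eV 3) = eL 5 from
        (by decide : toL (mvv (eV 2) (eV 3)) = toL (eL 5)), hfb]; rfl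
    | 3, 0 => rw [show mvv (eV 3) (eV 0) = eL 2 from
        (by decide : toL (mvv (eV 3) (eV 0)) = toL (eL 2)), hfb,
        sym_of p (eV 0) (eV 3) (rvv0 p hp) (rvv3 p hp) (rvv03 p hp)]; rfl
    | 3, 1 => rw [show mvv (eV 3) (eV 1) = eL 4 from
        (by decide : toL (mvv (eV 3) (eV 1)) = toL (eL 4)), hfb,
        sym_of p (eV 1) (eV 3) (rvv1 p hp) (rvv3 p hp) (rvv13 p hp)]; rfl
    | 3, 2 => rw [show mvv (eV 3) (eV 2) = eL 5 from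
        (by decide : toL (mvv (eV 3) (eV 2)) = toL (eL 5)), hfb,
        sym_of p (eV 2) (eV 3) (rvv2 p hp) (rvv3 p hp) (rvv23 p hp)]; rfl
    | 3, 3 => rw [rvv3 p hp, show mvv (eV 3) (eV 3) = 0 from wdg_self _, map_zero]
  exact fac (a := .v) (b := .v) (c := .l) mvv Std3.vv p hp f (fun x y => by
    rw [← bi_apply Std3.vv f x y, ← key]) eL span_eL (by
    intro i
    match i with
    | 0 => exact ⟨eV 0, eV 1, (by decide : toL (eL 0) = toL (mvv (eV 0) (eV 1)))⟩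
    | 1 => exact ⟨eV 0, eV 2, (by decide : toL (eL 1) = toL (mvv (eV 0) (eV 2)))⟩
    | 2 => exact ⟨eV 0, eV 3, (by decide : toL (eL 2) = toL (mvv (eV 0) (eV 3)))⟩
    | 3 => exact ⟨eV 1, eV 2, (by decide : toL (eL 3) = toL (mvv (eV 1) (eV 2)))⟩
    | 4 => exact ⟨eV 1, eV 3, (by decide : toL (eL 4) = toL (mvv (eV 1) (eV 3)))⟩
    | 5 => exact ⟨eV 2, eV 3, (by decide : toL (eL 5) = toL (mvv (eV 2) (eV 3)))⟩
    )

theorem vl_main (p : MV →+ ML →+ S) (hp : Adm p) :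
    ∃ F : MD →ₗ[RG] S, ∀ x y, p x y = F (mvl x y) := by
  let s : Fin 4 → S := ![p (eV 1) (eL 5), p (eV 0) (eL 5), p (eV 0) (eL 4), p (eV 0) (eL 3)]
  let f : MD →+ S := comb s
  have hfb : ∀ k, f (eD k) = s k := by
    intro k
    change comb s (b4 k) = s k
    rw [b4_eq, comb_single]
  have key : p = bi (S := S) Std3.vl f := by
    apply bi_ext eV span_eV eL span_eL
    intro i j
    rw [bi_apply]
    match i, j with
    | 0, 0 => rw [rvl0_0 p hp, show mvl (eV 0) (eL 0) = 0 from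
        (by decide : toD (mvl (eV 0) (eL 0)) = 0), map_zero]
    | 0, 1 => rw [rvl0_1 p hp, show mvl (eV 0) (eL 1) = 0 from
        (by decide : toD (mvl (eV 0) (eL 1)) = 0), map_zero]
    | 0, 2 => rw [rvl0_2 p hp, show mvl (eV 0) (eL 2) = 0 from
        (by decide : toD (mvl (eV 0) (eL 2)) = 0), map_zero]
    | 0, 3 => rw [show mvl (eV 0) (eL 3) = eD 3 from
        (by decide : toD (mvl (eV 0) (eL 3)) = toD (eD 3)), hfb]; rfl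
    | 0, 4 => rw [show mvl (eV 0) (eL 4) = eD 2 from
        (by decide : toD (mvl (eV 0) (eL 4)) = toD (eD 2)), hfb]; rfl
    | 0, 5 => rw [show mvl (eV 0) (eL 5) = eD 1 from
        (by decide : toD (mvl (eV 0) (eL 5)) = toD (eD 1)), hfb]; rfl
    | 1, 0 => rw [rvl1_0 p hp, show mvl (eV 1) (eL 0) = 0 from
        (by decide : toD (mvl (eV 1) (eL 0)) = 0), map_zero]
    | 1, 1 => rw [show mvl (eV 1) (eL 1) = eD 3 from
        (by decide : toD (mvl (eV 1) (eL 1)) = toD (eD 3)), hfb,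
        ← tri_of p (eV 0) (eV 1) (eL 1) (eL 3) (rvl0_1 p hp)
          (rvl1_3 p hp) (rvl01_2 p hp)]; rfl
    | 1, 2 => rw [show mvl (eV 1) (eL 2) = eD 2 from
        (by decide : toD (mvl (eV 1) (eL 2)) = toD (eD 2)), hfb,
        ← tri_of p (eV 0) (eV 1) (eL 2) (eL 4) (rvl0_2 p hp)
          (rvl1_4 p hp) (rvl01_3 p hp)]; rfl
    | 1, 3 => rw [rvl1_3 p hp, show mvl (eV 1) (eL 3) = 0 from
        (by decide : toD (mvl (eV 1) (eL 3)) = 0), map_zero]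
    | 1, 4 => rw [rvl1_4 p hp, show mvl (eV 1) (eL 4) = 0 from
        (by decide : toD (mvl (eV 1) (eL 4)) = 0), map_zero]
    | 1, 5 => rw [show mvl (eV 1) (eL 5) = eD 0 from
        (by decide : toD (mvl (eV 1) (eL 5)) = toD (eD 0)), hfb]; rfl
    | 2, 0 => rw [show mvl (eV 2) (eL 0) = eD 3 from
        (by decide : toD (mvl (eV 2) (eL 0)) = toD (eD 3)), hfb,
        ← tri_of p (eV 0) (eV 2) (eL 0) (eL 3) (rvl0_0 p hp)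
          (rvl2_3 p hp) (rvl02_1 p hp)]; rfl
    | 2, 1 => rw [rvl2_1 p hp, show mvl (eV 2) (eL 1) = 0 from
        (by decide : toD (mvl (eV 2) (eL 1)) = 0), map_zero]
    | 2, 2 => rw [show mvl (eV 2) (eL 2) = eD 1 from
        (by decide : toD (mvl (eV 2) (eL 2)) = toD (eD 1)), hfb,
        ← tri_of p (eV 0) (eV 2) (eL 2) (eL 5) (rvl0_2 p hp)
          (rvl2_5 p hp) (rvl02_3 p hp)]; rfl
    | 2, 3 => rw [rvl2_3 p hp, show mvl (eV 2) (eL 3) = 0 from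
        (by decide : toD (mvl (eV 2) (eL 3)) = 0), map_zero]
    | 2, 4 => rw [show mvl (eV 2) (eL 4) = eD 0 from
        (by decide : toD (mvl (eV 2) (eL 4)) = toD (eD 0)), hfb,
        ← tri_of p (eV 1) (eV 2) (eL 4) (eL 5) (rvl1_4 p hp)
          (rvl2_5 p hp) (rvl12_3 p hp)]; rfl
    | 2, 5 => rw [rvl2_5 p hp, show mvl (eV 2) (eL 5) = 0 from
        (by decide : toD (mvl (eV 2) (eL 5)) = 0), map_zero]
    | 3, 0 => rw [show mvl (eV 3) (eL 0) = eD 2 from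
        (by decide : toD (mvl (eV 3) (eL 0)) = toD (eD 2)), hfb,
        ← tri_of p (eV 0) (eV 3) (eL 0) (eL 4) (rvl0_0 p hp)
          (rvl3_4 p hp) (rvl03_1 p hp)]; rfl
    | 3, 1 => rw [show mvl (eV 3) (eL 1) = eD 1 from
        (by decide : toD (mvl (eV 3) (eL 1)) = toD (eD 1)), hfb,
        ← tri_of p (eV 0) (eV 3) (eL 1) (eL 5) (rvl0_1 p hp)
          (rvl3_5 p hp) (rvl03_2 p hp)]; rfl
    | 3, 2 => rw [rvl3_2 p hp, show mvl (eV 3) (eL 2) = 0 from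
        (by decide : toD (mvl (eV 3) (eL 2)) = 0), map_zero]
    | 3, 3 => rw [show mvl (eV 3) (eL 3) = eD 0 from
        (by decide : toD (mvl (eV 3) (eL 3)) = toD (eD 0)), hfb,
        ← tri_of p (eV 1) (eV 3) (eL 3) (eL 5) (rvl1_3 p hp)
          (rvl3_5 p hp) (rvl13_2 p hp)]; rfl
    | 3, 4 => rw [rvl3_4 p hp, show mvl (eV 3) (eL 4) = 0 from
        (by decide : toD (mvl (eV 3) (eL 4)) = 0), map_zero]
    | 3, 5 => rw [rvl3_5 p hp, show mvl (eV 3) (eL 5) = 0 from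
        (by decide : toD (mvl (eV 3) (eL 5)) = 0), map_zero]
  exact fac (a := .v) (b := .l) (c := .d) mvl Std3.vl p hp f (fun x y => by
    rw [← bi_apply Std3.vl f x y, ← key]) eD span_eD (by
    intro i
    match i with
    | 0 => exact ⟨eV 1, eL 5, (by decide : toD (eD 0) = toD (mvl (eV 1) (eL 5)))⟩
    | 1 => exact ⟨eV 0, eL 5, (by decide : toD (eD 1) = toD (mvl (eV 0) (eL 5)))⟩
    | 2 => exact ⟨eV 0, eL 4, (by decide : toD (eD 2) = toD (mvl (eV 0) (eL 4)))⟩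
    | 3 => exact ⟨eV 0, eL 3, (by decide : toD (eD 3) = toD (mvl (eV 0) (eL 3)))⟩
    )

theorem vd_main (p : MV →+ MD →+ S) (hp : Adm p) (x : MV) (y : MD) : p x y = 0 := by
  have key : p = 0 := by
    apply bi_ext eV span_eV eD span_eD
    intro i j
    rw [AddMonoidHom.zero_apply, AddMonoidHom.zero_apply]
    match i, j with
    | 0, 0 => exact rvd0_0 p hp
    | 0, 1 => exact (by
        have h := rvd0_01 p hp
        rwa [map_add, rvd0_0 p hp, zero_add] at h)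
    | 0, 2 => exact (by
        have h := rvd0_02 p hp
        rwa [map_add, rvd0_0 p hp, zero_add] at h)
    | 0, 3 => exact (by
        have h := rvd0_03 p hp
        rwa [map_add, rvd0_0 p hp, zero_add] at h)
    | 1, 0 => exact (by
        have h := rvd1_01 p hp
        rwa [map_add, rvd1_1 p hp, add_zero] at h)
    | 1, 1 => exact rvd1_1 p hp
    | 1, 2 => exact (by
        have h := rvd1_12 p hp
        rwa [map_add, rvd1_1 p hp, zero_add] at h)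
    | 1, 3 => exact (by
        have h := rvd1_13 p hp
        rwa [map_add, rvd1_1 p hp, zero_add] at h)
    | 2, 0 => exact (by
        have h := rvd2_02 p hp
        rwa [map_add, rvd2_2 p hp, add_zero] at h)
    | 2, 1 => exact (by
        have h := rvd2_12 p hp
        rwa [map_add, rvd2_2 p hp, add_zero] at h)
    | 2, 2 => exact rvd2_2 p hp
    | 2, 3 => exact (by
        have h := rvd2_23 p hp
        rwa [map_add, rvd2_2 p hp, zero_add] at h)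
    | 3, 0 => exact (by
        have h := rvd3_03 p hp
        rwa [map_add, rvd3_3 p hp, add_zero] at h)
    | 3, 1 => exact (by
        have h := rvd3_13 p hp
        rwa [map_add, rvd3_3 p hp, add_zero] at h)
    | 3, 2 => exact (by
        have h := rvd3_23 p hp
        rwa [map_add, rvd3_3 p hp, add_zero] at h)
    | 3, 3 => exact rvd3_3 p hp
  rw [key, AddMonoidHom.zero_apply, AddMonoidHom.zero_apply]

theorem ll_main (p : ML →+ ML →+ S) (hp : Adm p) (x : ML) (y : ML) : p x y = 0 := by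
  have key : p = 0 := by
    apply bi_ext nL span_nL nL span_nL
    intro i j
    rw [AddMonoidHom.zero_apply, AddMonoidHom.zero_apply]
    match i, j with
    | 0, 0 => exact (rll0_0 p hp).1
    | 0, 1 => exact (rll0_1 p hp).1
    | 0, 2 => exact (rll0_2 p hp).1
    | 0, 3 => exact (rll0_3 p hp).1
    | 0, 4 => exact (rll0_4 p hp).1
    | 0, 5 => exact (rll0_5 p hp).1
    | 1, 0 => exact (rll0_1 p hp).2
    | 1, 1 => exact (rll1_1 p hp).1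
    | 1, 2 => exact (rll1_2 p hp).1
    | 1, 3 => exact (rll1_3 p hp).1
    | 1, 4 => exact (rll1_4 p hp).1
    | 1, 5 => exact (rll1_5 p hp).1
    | 2, 0 => exact (rll0_2 p hp).2
    | 2, 1 => exact (rll1_2 p hp).2
    | 2, 2 => exact (rll2_2 p hp).1
    | 2, 3 => exact (rll2_3 p hp).1
    | 2, 4 => exact (rll2_4 p hp).1
    | 2, 5 => exact (rll2_5 p hp).1
    | 3, 0 => exact (rll0_3 p hp).2
    | 3, 1 => exact (rll1_3 p hp).2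
    | 3, 2 => exact (rll2_3 p hp).2
    | 3, 3 => exact (rll3_3 p hp).1
    | 3, 4 => exact (rll3_4 p hp).1
    | 3, 5 => exact (rll3_5 p hp).1
    | 4, 0 => exact (rll0_4 p hp).2
    | 4, 1 => exact (rll1_4 p hp).2
    | 4, 2 => exact (rll2_4 p hp).2
    | 4, 3 => exact (rll3_4 p hp).2
    | 4, 4 => exact (rll4_4 p hp).1
    | 4, 5 => exact (rll4_5 p hp).1
    | 5, 0 => exact (rll0_5 p hp).2
    | 5, 1 => exact (rll1_5 p hp).2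
    | 5, 2 => exact (rll2_5 p hp).2
    | 5, 3 => exact (rll3_5 p hp).2
    | 5, 4 => exact (rll4_5 p hp).2
    | 5, 5 => exact (rll5_5 p hp).1
  rw [key, AddMonoidHom.zero_apply, AddMonoidHom.zero_apply]

end base


/-! ### twisting and flipping -/

section tw
variable {S : Type} [AddCommGroup S] [Module RG S]

theorem sig_inj : Function.Injective sig := fun a b h => by rw [← sig_sig a, h, sig_sig]

theorem ord_sig (g : Gam) : orderOf (sig g) = orderOf g := orderOf_injective sig sig_inj g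

/-- the identity map `S → Tw S` -/
def cT (S : Type) [AddCommGroup S] : S →+ Tw S := ⟨⟨fun x => x, rfl⟩, fun _ _ => rfl⟩

/-- the twist of a pairing -/
def twp {A A' B B' : Type} [AddCommGroup A] [AddCommGroup A'] [AddCommGroup B] [AddCommGroup B']
    (p : A →+ B →+ S) (α : A' →+ A) (β : B' →+ B) : A' →+ B' →+ Tw S :=
  AddMonoidHom.mk' (fun x => ((cT S).comp (p (α x))).comp β) (by
    intro x x'
    ext y
    change cT S (p (α (x + x')) (β y)) = cT S (p (α x) (β y)) + cT S (p (α x') (β y))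
    rw [map_add, map_add, AddMonoidHom.add_apply, map_add])

theorem twp_adm {A A' B B' : Type} [AddCommGroup A] [AddCommGroup A'] [AddCommGroup B]
    [AddCommGroup B'] [Module RG A] [Module RG A'] [Module RG B] [Module RG B']
    (p : A →+ B →+ S) (hp : Adm p) (α : A' →+ A) (β : B' →+ B)
    (hα : ∀ g x, α (act g x) = act (sig g) (α x)) (hβ : ∀ g x, β (act g x) = act (sig g) (β x)) :
    Adm (twp p α β) := by
  constructor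
  · intro g x y
    change cT S (p (α (act g x)) (β (act g y))) = act g (cT S (p (α x) (β y)))
    rw [hα, hβ, hp.equiv, act_Tw]
    rfl
  · intro g hg x y hx hy
    change cT S (p (α x) (β y)) = 0
    rw [hp.fix (sig g) (by rwa [ord_sig]) (α x) (β y) (by rw [← hα, hx]) (by rw [← hβ, hy]),
      map_zero]
  · intro g hg x y
    change cT S (p (α (nrm4 g x)) (β (nrm4 g y))) = 0
    have h1 : α (nrm4 g x) = nrm4 (sig g) (α x) := by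
      simp only [nrm4, map_add, hα, map_pow]
    have h2 : β (nrm4 g y) = nrm4 (sig g) (β y) := by
      simp only [nrm4, map_add, hβ, map_pow]
    rw [h1, h2, hp.four (sig g) (by rwa [ord_sig]), map_zero]

theorem flip_adm {A B : Type} [AddCommGroup A] [AddCommGroup B] [Module RG A] [Module RG B]
    (p : A →+ B →+ S) (hp : Adm p) : Adm p.flip where
  equiv g x y := hp.equiv g y x
  fix g hg x y hx hy := hp.fix g hg y x hy hx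
  four g hg x y := hp.four g hg y x

/-- `V → V*`, the identity in coordinates -/
def cVD : MV →+ MD := ⟨⟨fun x => x, rfl⟩, fun _ _ => rfl⟩
/-- `L → L`, the Hodge star -/
def cLL : ML →+ ML := AddMonoidHom.mk' (fun x => hs x) hs_add

theorem cVD_act (g : Gam) (x : MV) : cVD (act g x) = act (sig g) (cVD x) := by
  rw [act_MD, act_MV]
  change g.1 *ᵥ x = ((g.1ᵀ)ᵀ) *ᵥ x
  rw [Matrix.transpose_transpose]

theorem cLL_act (g : Gam) (x : ML) : cLL (act g x) = act (sig g) (cLL x) := by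
  rw [act_ML, act_ML]
  exact hs_actL g.1 (g⁻¹).1 (gam_mul_inv g) x

theorem dd_main (p : MD →+ MD →+ S) (hp : Adm p) :
    ∃ F : ML →ₗ[RG] S, ∀ x y, p x y = F (mdd x y) := by
  obtain ⟨F, hF⟩ := vv_main (twp p cVD cVD) (twp_adm p hp cVD cVD cVD_act cVD_act)
  let f : ML →+ S := AddMonoidHom.mk' (fun l => (F (cLL l) : Tw S)) (by
    intro l m
    rw [map_add, map_add]
    rfl)
  refine fac (a := .d) (b := .d) (c := .l) mdd Std3.dd p hp f ?_ eL span_eL ?_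
  · intro x y
    have h := hF x y
    change p x y = F (hs (hs (wdg x y)))
    rw [hs_hs]
    exact h
  · intro i
    match i with
    | 0 => exact ⟨eD 2, eD 3, (by decide : toL (eL 0) = toL (mdd (eD 2) (eD 3)))⟩
    | 1 => exact ⟨eD 1, eD 3, (by decide : toL (eL 1) = toL (mdd (eD 1) (eD 3)))⟩
    | 2 => exact ⟨eD 1, eD 2, (by decide : toL (eL 2) = toL (mdd (eD 1) (eD 2)))⟩
    | 3 => exact ⟨eD 0, eD 3, (by decide : toL (eL 3) = toL (mdd (eD 0) (eD 3)))⟩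
    | 4 => exact ⟨eD 0, eD 2, (by decide : toL (eL 4) = toL (mdd (eD 0) (eD 2)))⟩
    | 5 => exact ⟨eD 0, eD 1, (by decide : toL (eL 5) = toL (mdd (eD 0) (eD 1)))⟩

theorem dl_main (p : MD →+ ML →+ S) (hp : Adm p) :
    ∃ F : MV →ₗ[RG] S, ∀ x y, p x y = F (mdl x y) := by
  obtain ⟨F, hF⟩ := vl_main (twp p cVD cLL) (twp_adm p hp cVD cLL cVD_act cLL_act)
  let f : MV →+ S := AddMonoidHom.mk' (fun l => (F (cVD l) : Tw S)) (by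
    intro l m
    rw [map_add, map_add]
    rfl)
  refine fac (a := .d) (b := .l) (c := .v) mdl Std3.dl p hp f ?_ eV span_eV ?_
  · intro x y
    have h := hF x (hs y)
    have e1 : (hs (hs y) : V6) = y := hs_hs y
    have e2 : twp p cVD cLL x (hs y) = p x (hs (hs y)) := rfl
    rw [e2] at h
    change p x y = F (toMat y *ᵥ x)
    have e3 : mvl x (hs y) = (toMat (hs (hs y)) *ᵥ x : V4) := rfl
    rw [e3, e1] at h
    exact h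
  · intro i
    match i with
    | 0 => exact ⟨eD 1, eL 0, (by decide : toV (eV 0) = toV (mdl (eD 1) (eL 0)))⟩
    | 1 => exact ⟨eD 0, eL 0, (by decide : toV (eV 1) = toV (mdl (eD 0) (eL 0)))⟩
    | 2 => exact ⟨eD 3, eL 5, (by decide : toV (eV 2) = toV (mdl (eD 3) (eL 5)))⟩
    | 3 => exact ⟨eD 2, eL 5, (by decide : toV (eV 3) = toV (mdl (eD 2) (eL 5)))⟩
end tw

end GG67

open GG67 in
/-- A8-M02 -/
theorem bGG (_h1 : S_PERF) : S_GG := by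
  intro a b S _ _ p hp
  match a, b with
  | .v, .v =>
    obtain ⟨F, hF⟩ := vv_main p hp
    exact Or.inr ⟨.l, mvv, F, Std3.vv, hF⟩
  | .v, .d => exact Or.inl (vd_main p hp)
  | .v, .l =>
    obtain ⟨F, hF⟩ := vl_main p hp
    exact Or.inr ⟨.d, mvl, F, Std3.vl, hF⟩
  | .d, .v =>
    exact Or.inl fun x y => vd_main p.flip (flip_adm p hp) y x
  | .d, .d =>
    obtain ⟨F, hF⟩ := dd_main p hp
    exact Or.inr ⟨.l, mdd, F, Std3.dd, hF⟩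
  | .d, .l =>
    obtain ⟨F, hF⟩ := dl_main p hp
    exact Or.inr ⟨.v, mdl, F, Std3.dl, hF⟩
  | .l, .v =>
    obtain ⟨F, hF⟩ := vl_main p.flip (flip_adm p hp)
    exact Or.inr ⟨.d, mlv, F, Std3.lv, fun x y => hF y x⟩
  | .l, .d =>
    obtain ⟨F, hF⟩ := dl_main p.flip (flip_adm p hp)
    exact Or.inr ⟨.v, mld, F, Std3.ld, fun x y => hF y x⟩
  | .l, .l => exact Or.inl (ll_main p hp)

end Pool.Agent.A8
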